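import Pool.Agent.H.MP_0c96e5_nt.helper74.Kuh6

/-!
# MP_0c96e5 : Kanold's bound and better ones, up to few prime factors

With `x = p_n`: every block of at least `p_n ^ (1 + 4 ^ (-r))` consecutive integers contains an
integer divisible by at most `r` of the primes `p_1, …, p_n`, and for `0 < C < 2 / 3` every block
of at least `p_n ^ (2 - C)` consecutive integers contains an integer divisible by at most one of
them, and by none up to `p_n ^ (1 - C - ε)`.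
-/

set_option autoImplicit false

namespace Pool.Agent.Results.MP_0c96e5_nt.FewPrimeFactors

/-- (1) Let `r ≥ 1`. For all large `x`, every block `m + 1, …, m + y` of `y ≥ x ^ (1 + 4 ^ (-r))`
consecutive integers contains an integer `n` which is divisible by no prime `p ≤ x ^ (1 / 6)` and
by at most `r` primes `p ≤ x`.
(2) Let `0 < C < 2 / 3` and `θ < 1 - C`. For all large `x`, every block `m + 1, …, m + y` of
`y ≥ x ^ (2 - C)` consecutive integers contains an integer `n` which is divisible by no prime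
`p ≤ x ^ θ` and by at most one prime `p ≤ x`. -/
theorem result :
    (∀ r : ℕ, 1 ≤ r → ∃ x₀ : ℝ, ∀ (x y : ℕ) (m : ℤ), x₀ ≤ x →
      (x : ℝ) ^ (1 + (1 / 4 : ℝ) ^ r) ≤ y →
      ∃ n : ℤ, m < n ∧ n ≤ m + y ∧
        (∀ p : ℕ, p.Prime → (p : ℝ) ≤ (x : ℝ) ^ (1 / 6 : ℝ) → ¬ (p : ℤ) ∣ n) ∧
        {p : ℕ | p.Prime ∧ p ≤ x ∧ (p : ℤ) ∣ n}.ncard ≤ r) ∧
    (∀ C θ : ℝ, 0 < C → C < 2 / 3 → θ < 1 - C → ∃ x₀ : ℝ, ∀ (x y : ℕ) (m : ℤ), x₀ ≤ x →
      (x : ℝ) ^ (2 - C) ≤ y →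
      ∃ n : ℤ, m < n ∧ n ≤ m + y ∧
        (∀ p : ℕ, p.Prime → (p : ℝ) ≤ (x : ℝ) ^ θ → ¬ (p : ℤ) ∣ n) ∧
        {p : ℕ | p.Prime ∧ p ≤ x ∧ (p : ℤ) ∣ n}.ncard ≤ 1) :=
  ⟨fun _ hr => Pool.LinSieve.few_four hr, fun _ _ h0 h1 h2 => Pool.LinSieve.few_one h0 h1 h2⟩

end Pool.Agent.Results.MP_0c96e5_nt.FewPrimeFactors
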