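import Pool.Agent.H.MP_0c96e5_nt.helper74.Rob3

/-!
# MP_0c96e5 : Kanold's bound after the removal of one prime

With `x = p_n` and `P_n` the product of the first `n` primes: in every block of at least
`p_n ^ (2 - C)` consecutive integers there is an integer prime to `P_n / p`, for all primes `p` in
`(p_n ^ α, p_n]` but a set with `∑ 1/p ≤ K C`, where `K` depends only on `α`.
-/

set_option autoImplicit false

namespace Pool.Agent.Results.MP_0c96e5_nt.OnePrimeRemoved

/-- Let `α > 0`. There is `K` such that for every `C > 0`, all large integers `x`, all integers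
`y ≥ x ^ (2 - C)` and all integers `m`: if `E` is a finite set of primes `p`, `x ^ α < p ≤ x`, such
that none of the integers `m + 1, …, m + y` is prime to `primorial x / p` (the product of all
primes up to `x` other than `p`), then `∑_{p ∈ E} 1/p ≤ K C`. -/
theorem result {α : ℝ} (hα : 0 < α) :
    ∃ K : ℝ, ∀ C : ℝ, 0 < C → ∃ x₀ : ℝ, ∀ (x y : ℕ) (m : ℤ) (E : Finset ℕ), x₀ ≤ x →
      (x : ℝ) ^ (2 - C) ≤ y →
      (∀ p ∈ E, p.Prime ∧ (x : ℝ) ^ α < p ∧ p ≤ x ∧
        ∀ n : ℤ, m < n → n ≤ m + y → ¬ IsCoprime n ((primorial x / p : ℕ) : ℤ)) →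
      ∑ p ∈ E, 1 / (p : ℝ) ≤ K * C :=
  Pool.LinSieve.robust hα

end Pool.Agent.Results.MP_0c96e5_nt.OnePrimeRemoved
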