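import Pool.Agent.H.MP_0c96e5_nt.KMain

/-!
# MP_0c96e5 : Kanold's bound for almost all residues modulo the medium primes

For `θ > 1/e` and `C < 1`, almost every residue `a` modulo the product `M` of the primes in
`(x^β, x^θ]` is such that every block of `x^(2 - C)` integers that begins after an integer
congruent to `a` modulo `M` has an integer prime to the product of all primes up to `x`.
-/

set_option autoImplicit false

namespace Pool.Agent.Results.MP_0c96e5_nt.RandomMediumResidues

/-- Let `1/e < θ < 1` and `C < 1`. There are `0 < β < θ` and `x₀` such that for all integers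
`x ≥ x₀` and `y ≥ x ^ (2 - C)`, with `M` the product of the primes `p` such that
`x ^ β < p ≤ x ^ θ`: at most `exp (-(x ^ β)) * M` of the residues `a` modulo `M` are such that for
some integer `m` congruent to `a` modulo `M`, none of the integers `m + 1, …, m + y` is prime to
the product `primorial x` of all primes `p ≤ x`. -/
theorem result {θ C : ℝ} (h0 : Real.exp (-1) < θ) (h1 : θ < 1) (hC : C < 1) :
    ∃ β x₀ : ℝ, 0 < β ∧ β < θ ∧ ∀ x y M : ℕ, x₀ ≤ x → (x : ℝ) ^ (2 - C) ≤ y →
      M = ∏ p ∈ (Finset.range (x + 1)).filter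
        (fun p : ℕ => p.Prime ∧ (x : ℝ) ^ β < p ∧ (p : ℝ) ≤ (x : ℝ) ^ θ), p →
      (({a : ℕ | a < M ∧ ∃ m : ℤ, m ≡ a [ZMOD (M : ℤ)] ∧
        ∀ n : ℤ, m < n → n ≤ m + y → ¬ IsCoprime n (primorial x : ℤ)} : Set ℕ).ncard : ℝ) ≤
        Real.exp (-(x : ℝ) ^ β) * M :=
  Pool.MP42e49e.KN.main h0 h1 hC

end Pool.Agent.Results.MP_0c96e5_nt.RandomMediumResidues
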