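import Pool.Agent.H.MP_0c96e5_nt.LinP

/-!
# MP_0c96e5 : a power saving over Iwaniec's bound for almost all residues modulo the primes of any
set of positive logarithmic size

For all `α, σ > 0` there is `C > 0` such that for every set `R` of primes in `(x^α, x]` with
`∑ 1/p ≥ σ`, almost every residue `a` modulo the product `M` of the primes of `R` has this
property: every block of `x^(2 - C)` integers that begins after an integer congruent to `a` modulo
`M` has an integer prime to the product of all primes up to `x`.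
-/

set_option autoImplicit false

namespace Pool.Agent.Results.MP_0c96e5_nt.RandomPrimeSets

/-- Let `α > 0` and `σ > 0`. There are `β > 0`, `C > 0` and `x₀` such that for all integers
`x ≥ x₀` and `y ≥ x ^ (2 - C)` and every finite set `R` of primes `p` with `x ^ α < p ≤ x` and
`∑_{p ∈ R} 1/p ≥ σ`, with `M` the product of the primes of `R`: at most `exp (-(x ^ β)) * M` of
the residues `a` modulo `M` are such that for some integer `m` congruent to `a` modulo `M`, none
of the integers `m + 1, …, m + y` is prime to the product `primorial x` of all primes `p ≤ x`. -/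
theorem result {α σ : ℝ} (h0 : 0 < α) (h1 : 0 < σ) :
    ∃ β C x₀ : ℝ, 0 < β ∧ 0 < C ∧ ∀ (x y M : ℕ) (R : Finset ℕ), x₀ ≤ x →
      (x : ℝ) ^ (2 - C) ≤ y →
      (∀ p ∈ R, p.Prime ∧ (x : ℝ) ^ α < p ∧ p ≤ x) → σ ≤ ∑ p ∈ R, 1 / (p : ℝ) →
      M = ∏ p ∈ R, p →
      (({a : ℕ | a < M ∧ ∃ m : ℤ, m ≡ a [ZMOD (M : ℤ)] ∧
        ∀ n : ℤ, m < n → n ≤ m + y → ¬ IsCoprime n (primorial x : ℤ)} : Set ℕ).ncard : ℝ) ≤
        Real.exp (-(x : ℝ) ^ β) * M :=
  Pool.LinSieve.main_sets h0 h1

end Pool.Agent.Results.MP_0c96e5_nt.RandomPrimeSets
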